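import Pool.Agent.H72.EQQ.Targets

/-!
Row LHQ of the board eqq: the counted tuples are approximated by the sets `SF`, with a power saving.
-/

set_option autoImplicit false

open Pool.Agent.H38.AE.Statement Pool.Agent.H38.AT MeasureTheory Filter
open Pool.Agent.H71.EQ

namespace Pool.Agent.H72.EQQ

theorem lhq_nu {k : ℕ} (hk : 2 ≤ k) : 0 < nu k ∧ nu k ≤ 1 / 3 ∧ nu k = 1 / ((k + 1 : ℕ) : ℝ) := by
  have hk2 : (2 : ℝ) ≤ k := by exact_mod_cast hk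
  unfold nu
  refine ⟨by positivity, ?_, by push_cast; rfl⟩
  exact one_div_le_one_div_of_le (by norm_num) (by linarith)

theorem lhq_log {ε X : ℝ} (hε1 : ε < 1) (hX : Real.exp (2 ^ (1 / (1 - ε))) ≤ X) :
    1 ≤ Real.log X ∧ 2 * Real.log X ≤ Real.log X ^ (2 - ε) := by
  have he : 0 < 1 - ε := by linarith
  have h1 : (2 : ℝ) ^ (1 / (1 - ε)) ≤ Real.log X := by
    rw [Real.le_log_iff_exp_le ((Real.exp_pos _).trans_le hX)]
    exact hX
  have h2 : (1 : ℝ) ≤ (2 : ℝ) ^ (1 / (1 - ε)) :=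
    Real.one_le_rpow (by norm_num) (by positivity)
  have h3 : 1 ≤ Real.log X := h2.trans h1
  refine ⟨h3, ?_⟩
  have h4 : (2 : ℝ) ≤ Real.log X ^ (1 - ε) := by
    have h5 := Real.rpow_le_rpow (by positivity) h1 he.le
    rw [← Real.rpow_mul (by norm_num), one_div_mul_cancel he.ne', Real.rpow_one] at h5
    exact h5
  calc 2 * Real.log X ≤ Real.log X ^ (1 - ε) * Real.log X :=
        mul_le_mul_of_nonneg_right h4 (by linarith)
    _ = Real.log X ^ (2 - ε) := by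
        rw [← Real.rpow_add_one (by linarith : Real.log X ≠ 0)]
        congr 1
        ring

theorem lhq_sub {k : ℕ} (hk : 2 ≤ k) {ε ρ lam X : ℝ} (hε1 : ε < 1) (hlam : 1 ≤ lam)
    (hlX : lam ≤ X) (hX : Real.exp (2 ^ (1 / (1 - ε))) ≤ X) (E : ℕ) (κ : ℝ) :
    SF k E κ lam X ⊆ Tuples k ε ρ X := by
  obtain ⟨hn0, hn3, -⟩ := lhq_nu hk
  obtain ⟨hl1, hl2⟩ := lhq_log hε1 hX
  intro x hx
  obtain ⟨hxa, -, -, hxr, hxh⟩ := hx
  refine ⟨hxa, hxr, Or.inr (Or.inl ?_)⟩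
  have hX0 : 0 < X := by linarith
  refine le_trans ?_ hl2
  rcases Nat.eq_zero_or_pos (height x) with h3 | h3
  · rw [h3, Nat.cast_zero, Real.log_zero]
    linarith
  · have h4 : Real.log (height x) ≤ Real.log (lam * X ^ nu k) :=
      Real.log_le_log (by exact_mod_cast h3) hxh
    rw [Real.log_mul (by linarith) (Real.rpow_pos_of_pos hX0 _).ne', Real.log_rpow hX0] at h4
    have h5 : nu k * Real.log X ≤ 1 / 3 * Real.log X :=
      mul_le_mul_of_nonneg_right hn3 (by linarith)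
    have h6 : Real.log lam ≤ Real.log X := Real.log_le_log (by linarith) hlX
    linarith

theorem pf_LHQ (h1 : T_RED) (h2 : T_SMQ) (h3 : T_TGQ) (h4 : T_EXC) (h5 : T_CTB) : T_LHQ := by
  intro k ε hk hε hε1
  obtain ⟨hn0, hn3, hnu⟩ := lhq_nu hk
  obtain ⟨ε₀, cT, CT, hε₀, hcT, hCT, hT⟩ := h3 (k + 1) (by omega)
  obtain ⟨ε₁, δS, CS, hε₁, hδS, hCS, hS⟩ := h2 k hk
  obtain ⟨ε₂, CB, hε₂, hCB, hB⟩ := h5 k hk
  obtain ⟨e, he⟩ : ∃ e : ℝ, e = min ε₀ (min ε₁ ε₂) := ⟨_, rfl⟩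
  have he0 : 0 < e := by
    rw [he]
    exact lt_min hε₀ (lt_min hε₁ hε₂)
  have hea : e ≤ ε₀ := by
    rw [he]
    exact min_le_left _ _
  have heb : e ≤ ε₁ := by
    rw [he]
    exact (min_le_right _ _).trans (min_le_left _ _)
  have hec : e ≤ ε₂ := by
    rw [he]
    exact (min_le_right _ _).trans (min_le_right _ _)
  obtain ⟨ρ, δR, CR, hρ, hδR, hCR, hR⟩ := h1 k ε e hk hε hε1 he0
  refine ⟨ρ, δS, min cT δR, CR + CS + CT + CB, max 3 (Real.exp (2 ^ (1 / (1 - ε)))), hρ, hδS,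
    lt_min hcT hδR, by positivity, le_max_left _ _, ?_, ?_⟩
  · -- the number of all tuples
    intro X hX3
    obtain ⟨hfin, hred⟩ := hR X hX3
    refine ⟨hfin, ?_⟩
    have hX1 : (1 : ℝ) ≤ X := by linarith
    obtain ⟨hbf, hbc⟩ := hB X hX1
    have hcov : Tuples k ε ρ X ⊆ {x | x ∈ Tuples k ε ρ X ∧ X ^ (nu k + e) < (height x : ℝ)} ∪
        {x : Fin (k + 1) → ℤ | Admissible x ∧ (rd x : ℝ) ≤ X ∧
          (height x : ℝ) ≤ X ^ (nu k + ε₂)} := by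
      intro x hx
      by_cases hh : X ^ (nu k + e) < (height x : ℝ)
      · exact Or.inl ⟨hx, hh⟩
      · exact Or.inr ⟨hx.1, hx.2.1, (not_lt.1 hh).trans
          (Real.rpow_le_rpow_of_exponent_le hX1 (by linarith))⟩
    have hAf : {x | x ∈ Tuples k ε ρ X ∧ X ^ (nu k + e) < (height x : ℝ)}.Finite :=
      hfin.subset fun x hx => hx.1
    have h6 := (Set.ncard_le_ncard hcov (hAf.union hbf)).trans (Set.ncard_union_le _ _)
    have h7 : ((Tuples k ε ρ X).ncard : ℝ) ≤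
        ({x | x ∈ Tuples k ε ρ X ∧ X ^ (nu k + e) < (height x : ℝ)}.ncard : ℝ) +
        ({x : Fin (k + 1) → ℤ | Admissible x ∧ (rd x : ℝ) ≤ X ∧
          (height x : ℝ) ≤ X ^ (nu k + ε₂)}.ncard : ℝ) := by exact_mod_cast h6
    have h8 : X ^ (1 - nu k - δR) ≤ X ^ (1 - nu k) :=
      Real.rpow_le_rpow_of_exponent_le hX1 (by linarith)
    have h9 : CR * X ^ (1 - nu k - δR) ≤ CR * X ^ (1 - nu k) :=
      mul_le_mul_of_nonneg_left h8 hCR.le
    have h10 : 0 < X ^ (1 - nu k) := Real.rpow_pos_of_pos (by linarith) _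
    have h11 : 0 < CS * X ^ (1 - nu k) := by positivity
    have h12 : 0 < CT * X ^ (1 - nu k) := by positivity
    calc ((Tuples k ε ρ X).ncard : ℝ) ≤ CR * X ^ (1 - nu k) + CB * X ^ (1 - nu k) := by linarith
      _ ≤ (CR + CS + CT + CB) * X ^ (1 - nu k) := by linarith
  intro X κ lam Y hX0 hκδ hκ1 hlam hlX hY
  have hX3 : (3 : ℝ) ≤ X := (le_max_left _ _).trans hX0
  have hXe : Real.exp (2 ^ (1 / (1 - ε))) ≤ X := (le_max_right _ _).trans hX0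
  have hX1 : (1 : ℝ) ≤ X := by linarith
  have hXp : 0 < X := by linarith
  have hY1 : (1 : ℝ) ≤ Y := by exact_mod_cast hY
  have hκp : 0 < κ := (Real.rpow_pos_of_pos hXp _).trans_le hκδ
  refine ⟨fun E _ => lhq_sub hk hε1 hlam hlX hXe E κ, ?_⟩
  obtain ⟨hfin, hred⟩ := hR X hX3
  obtain ⟨hsf, hsc⟩ := hS X κ hX1 hκ1.le hκδ
  classical
  set A : Set (Fin (k + 1) → ℤ) :=
    {x | x ∈ Tuples k ε ρ X ∧ X ^ (nu k + e) < (height x : ℝ)} with hA
  set B : Set (Fin (k + 1) → ℤ) :=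
    {x | Admissible x ∧ (rd x : ℝ) ≤ κ * X ∧ (height x : ℝ) ≤ X ^ (nu k + ε₁)} with hB'
  set F : Finset (Fin (k + 1) → ℤ) := hfin.toFinset.filter (fun x =>
    (height x : ℝ) ≤ X ^ (nu k + ε₀) ∧
      ((Y : ℝ) < Pool.Agent.H82.AS.ex (Pool.Agent.H38.EQ.pr x) ∨
        lam * X ^ nu k ≤ (height x : ℝ))) with hF
  have hAf : A.Finite := hfin.subset fun x hx => hx.1
  have hcov : Tuples k ε ρ X \ ⋃ E ∈ Finset.Icc 1 Y, SF k E κ lam X ⊆ A ∪ B ∪ (F : Set _) := by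
    rintro x ⟨hx, hnx⟩
    by_cases hh : X ^ (nu k + e) < (height x : ℝ)
    · exact Or.inl (Or.inl ⟨hx, hh⟩)
    have hh1 := not_lt.1 hh
    have hh2 : (height x : ℝ) ≤ X ^ (nu k + ε₀) := hh1.trans
      (Real.rpow_le_rpow_of_exponent_le hX1 (by linarith))
    have hh3 : (height x : ℝ) ≤ X ^ (nu k + ε₁) := hh1.trans
      (Real.rpow_le_rpow_of_exponent_le hX1 (by linarith))
    obtain ⟨hxa, hxr, hxt⟩ := hx
    obtain ⟨-, -, hex1, -, hexe⟩ := h4 (k + 1) x hxa.1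
    have hFm : ∀ hor : ((Y : ℝ) < Pool.Agent.H82.AS.ex (Pool.Agent.H38.EQ.pr x) ∨
        lam * X ^ nu k ≤ (height x : ℝ)), x ∈ (F : Set (Fin (k + 1) → ℤ)) := by
      intro hor
      rw [hF, Finset.coe_filter]
      exact ⟨hfin.mem_toFinset.2 ⟨hxa, hxr, hxt⟩, hh2, hor⟩
    by_cases hE : exc x ≤ Y
    · by_cases hr : (rd x : ℝ) ≤ κ * X
      · exact Or.inl (Or.inr ⟨hxa, hr, hh3⟩)
      · refine Or.inr (hFm (Or.inr ?_))
        by_contra hcon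
        apply hnx
        simp only [Set.mem_iUnion]
        exact ⟨exc x, Finset.mem_Icc.2 ⟨hex1, hE⟩, hxa, rfl, not_le.1 hr, hxr,
          (not_le.1 hcon).le⟩
    · refine Or.inr (hFm (Or.inl ?_))
      rw [← hexe]
      exact_mod_cast not_le.1 hE
  have hcard : (Tuples k ε ρ X \ ⋃ E ∈ Finset.Icc 1 Y, SF k E κ lam X).ncard ≤
      A.ncard + B.ncard + F.card := by
    refine (Set.ncard_le_ncard hcov ((hAf.union hsf).union F.finite_toSet)).trans ?_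
    refine (Set.ncard_union_le _ _).trans ?_
    rw [Set.ncard_coe_finset]
    exact Nat.add_le_add_right (Set.ncard_union_le _ _) _
  have hcardR : ((Tuples k ε ρ X \ ⋃ E ∈ Finset.Icc 1 Y, SF k E κ lam X).ncard : ℝ) ≤
      (A.ncard : ℝ) + B.ncard + F.card := by exact_mod_cast hcard
  obtain ⟨Z, hZ⟩ : ∃ Z : ℝ, Z = X ^ (1 - nu k) := ⟨_, rfl⟩
  have hZ0 : 0 < Z := by
    rw [hZ]
    exact Real.rpow_pos_of_pos hXp _
  have hXc1 : X ^ (-δR) ≤ X ^ (-(min cT δR)) :=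
    Real.rpow_le_rpow_of_exponent_le hX1 (by linarith [min_le_right cT δR])
  have hXc2 : X ^ (-cT) ≤ X ^ (-(min cT δR)) :=
    Real.rpow_le_rpow_of_exponent_le hX1 (by linarith [min_le_left cT δR])
  have hYc : (Y : ℝ) ^ (-cT) ≤ (Y : ℝ) ^ (-(min cT δR)) :=
    Real.rpow_le_rpow_of_exponent_le hY1 (by linarith [min_le_left cT δR])
  have hFc : (F.card : ℝ) ≤ CT * ((Y : ℝ) ^ (-cT) + (Y : ℝ) ^ 6 * lam ^ (-(1 / 2) : ℝ) +
      X ^ (-cT)) * Z := by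
    have h6 := hT X Y lam F hX1 hY1 hlam
    rw [← hnu, ← hZ] at h6
    refine h6 ?_
    intro x hx
    rw [hF, Finset.mem_filter, hfin.mem_toFinset] at hx
    exact ⟨hx.1.1, hx.1.2.1, hx.2.1, hx.2.2⟩
  have hBc : (B.ncard : ℝ) ≤ CS * κ ^ (1 / 2 : ℝ) * Z := by
    refine hsc.trans ?_
    rw [Real.mul_rpow hκp.le hXp.le, ← mul_assoc, ← hZ]
    refine mul_le_mul_of_nonneg_right (mul_le_mul_of_nonneg_left ?_ hCS.le) hZ0.le
    exact Real.rpow_le_rpow_of_exponent_ge hκp hκ1.le (by linarith)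
  have hAc : (A.ncard : ℝ) ≤ CR * X ^ (-δR) * Z := by
    refine hred.trans (le_of_eq ?_)
    rw [hZ, mul_assoc, ← Real.rpow_add hXp]
    congr 2
    ring
  obtain ⟨u, hu⟩ : ∃ u : ℝ, u = (Y : ℝ) ^ (-(min cT δR)) := ⟨_, rfl⟩
  obtain ⟨v, hv⟩ : ∃ v : ℝ, v = (Y : ℝ) ^ 6 * lam ^ (-(1 / 2) : ℝ) := ⟨_, rfl⟩
  obtain ⟨w, hw⟩ : ∃ w : ℝ, w = κ ^ (1 / 2 : ℝ) := ⟨_, rfl⟩
  obtain ⟨q, hq⟩ : ∃ q : ℝ, q = X ^ (-(min cT δR)) := ⟨_, rfl⟩
  rw [← hu] at hYc ⊢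
  rw [← hv] at hFc ⊢
  rw [← hw] at hBc ⊢
  rw [← hq] at hXc1 hXc2 ⊢
  rw [← hZ]
  have hu0 : 0 ≤ u := by
    rw [hu]
    positivity
  have hv0 : 0 ≤ v := by
    rw [hv]
    positivity
  have hw0 : 0 ≤ w := by
    rw [hw]
    positivity
  have hq0 : 0 ≤ q := by
    rw [hq]
    positivity
  have hF2 : (F.card : ℝ) ≤ CT * (u + v + w + q) * Z := by
    refine hFc.trans (mul_le_mul_of_nonneg_right (mul_le_mul_of_nonneg_left ?_ hCT.le) hZ0.le)
    linarith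
  have hB2 : (B.ncard : ℝ) ≤ CS * (u + v + w + q) * Z := by
    refine hBc.trans (mul_le_mul_of_nonneg_right (mul_le_mul_of_nonneg_left ?_ hCS.le) hZ0.le)
    linarith
  have hA2 : (A.ncard : ℝ) ≤ CR * (u + v + w + q) * Z := by
    refine hAc.trans (mul_le_mul_of_nonneg_right (mul_le_mul_of_nonneg_left ?_ hCR.le) hZ0.le)
    linarith
  have hB3 : 0 ≤ CB * (u + v + w + q) * Z := by positivity
  calc ((Tuples k ε ρ X \ ⋃ E ∈ Finset.Icc 1 Y, SF k E κ lam X).ncard : ℝ) ≤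
      (A.ncard : ℝ) + B.ncard + F.card := hcardR
    _ ≤ CR * (u + v + w + q) * Z + CS * (u + v + w + q) * Z + CT * (u + v + w + q) * Z +
        CB * (u + v + w + q) * Z := by linarith
    _ = (CR + CS + CT + CB) * (u + v + w + q) * Z := by ring

end Pool.Agent.H72.EQQ
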