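import Pool.Agent.H72.EQQ.Targets2

/-!
Row MUH of the board eqq: the distribution function of the norm under the limit measure is Hoelder
continuous.
-/

set_option autoImplicit false

open Pool.Agent.H38.AE.Statement Pool.Agent.H38.AT MeasureTheory Filter
open Pool.Agent.H71.EQ
open Pool.Agent.H82.EQ (pz hz)
open scoped ENNReal

namespace Pool.Agent.H72.EQQ

/-- the weight of `E` -/
noncomputable def muw (k E : ℕ) : ℝ := wt (k + 1) E * (E : ℝ) ^ (1 - nu k)

theorem muh_nu {k : ℕ} (hk : 2 ≤ k) : 0 < nu k ∧ nu k ≤ 1 / 3 ∧ nu k * ((k : ℝ) + 1) = 1 := by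
  have hk2 : (2 : ℝ) ≤ k := by exact_mod_cast hk
  unfold nu
  refine ⟨by positivity, one_div_le_one_div_of_le (by norm_num) (by linarith), ?_⟩
  field_simp

theorem muh_w0 {k : ℕ} (hk : 2 ≤ k) (h5 : T_PRD) (E : ℕ) : 0 ≤ muw k E := by
  unfold muw
  rcases Nat.eq_zero_or_pos E with h | h
  · subst h
    have h1 := (muh_nu hk).2.1
    rw [Nat.cast_zero, Real.zero_rpow (by linarith), mul_zero]
  · exact mul_nonneg (h5 k E hk h).2.2.1 (Real.rpow_nonneg (Nat.cast_nonneg _) _)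

theorem muh_pz {k : ℕ} (z : Fin k → ℝ) : PR z = pz z := by
  unfold PR pz extR
  rw [Fin.prod_univ_castSucc]
  simp only [Fin.snoc_castSucc, Fin.snoc_last]
  rw [mul_neg, abs_neg]

theorem muh_norm {k : ℕ} (E : ℕ) (z : Fin k → ℝ) :
    ‖arg E z‖ = (E : ℝ) ^ nu k * PR z ^ (-nu k) * hz z := by
  have h0 : 0 ≤ (E : ℝ) ^ nu k * PR z ^ (-nu k) := by
    have : 0 ≤ PR z := abs_nonneg _
    positivity
  have h1 : arg E z = ((E : ℝ) ^ nu k * PR z ^ (-nu k)) • extR z := by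
    funext i
    rfl
  have h2 : ‖extR z‖ = hz z := by
    unfold hz
    apply le_antisymm
    · refine (pi_norm_le_iff_of_nonneg (by positivity)).2 fun i => ?_
      refine Fin.lastCases ?_ (fun j => ?_) i
      · unfold extR
        simp only [Fin.snoc_last]
        rw [norm_neg, Real.norm_eq_abs]
        exact le_max_right _ _
      · unfold extR
        simp only [Fin.snoc_castSucc]
        exact (norm_le_pi_norm z j).trans (le_max_left _ _)
    · refine max_le ((pi_norm_le_iff_of_nonneg (norm_nonneg _)).2 fun j => ?_) ?_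
      · have h3 := norm_le_pi_norm (extR z) (Fin.castSucc j)
        unfold extR at h3
        simp only [Fin.snoc_castSucc] at h3
        exact h3
      · have h3 := norm_le_pi_norm (extR z) (Fin.last k)
        unfold extR at h3
        simp only [Fin.snoc_last] at h3
        rw [norm_neg, Real.norm_eq_abs] at h3
        exact h3
  rw [h1, norm_smul, h2, Real.norm_eq_abs, abs_of_nonneg h0]

/-- the volume for one excess -/
noncomputable def muv (k E : ℕ) (t s : ℝ) : ℝ≥0∞ :=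
  volume {z : Fin k → ℝ | PR z ≤ 1 ∧ t < ‖arg E z‖ ∧ ‖arg E z‖ ≤ t + s}

theorem muh_mu {k : ℕ} (t s : ℝ) : limitMeasure k {y | t < ‖y‖ ∧ ‖y‖ ≤ t + s} =
    ∑' E : ℕ, ENNReal.ofReal (muw k E) * muv k E t s := by
  have hm : MeasurableSet {y : Fin (k + 1) → ℝ | t < ‖y‖ ∧ ‖y‖ ≤ t + s} :=
    (measurableSet_lt measurable_const measurable_norm).inter
      (measurableSet_le measurable_norm measurable_const)
  unfold limitMeasure
  rw [Measure.sum_apply _ hm]
  refine tsum_congr fun E => ?_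
  rw [Measure.smul_apply, smul_eq_mul, Measure.map_apply (measurable_arg E) hm,
    Measure.restrict_apply (measurable_arg E hm)]
  unfold muv muw
  congr 2
  ext z
  constructor
  · rintro ⟨h1, h2⟩
    exact ⟨h2, h1⟩
  · rintro ⟨h1, h2⟩
    exact ⟨h2, h1⟩

theorem muh_tail {k : ℕ} (hk : 2 ≤ k) (h5 : T_PRD) {c C : ℝ}
    (h : ∀ (Y : ℝ) (F : Finset ℕ), 1 ≤ Y → (∀ E ∈ F, Y ≤ (E : ℝ)) →
      ∑ E ∈ F, wt (k + 1) E * (E : ℝ) ^ (1 - nu k) ≤ C * Y ^ (-c)) (Y : ℝ) (hY : 1 ≤ Y) :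
    ∑' E : ℕ, (if Y ≤ (E : ℝ) then ENNReal.ofReal (muw k E) else 0) ≤
      ENNReal.ofReal (C * Y ^ (-c)) := by
  classical
  rw [ENNReal.tsum_eq_iSup_sum]
  refine iSup_le fun F => ?_
  rw [← Finset.sum_filter, ← ENNReal.ofReal_sum_of_nonneg (fun E _ => muh_w0 hk h5 E)]
  refine ENNReal.ofReal_le_ofReal (h Y _ hY fun E hE => ?_)
  exact (Finset.mem_filter.1 hE).2

/-- the sum is split at `Y` -/
theorem muh_split {k : ℕ} (hk : 2 ≤ k) (h5 : T_PRD) {c C : ℝ}
    (h : ∀ (Y : ℝ) (F : Finset ℕ), 1 ≤ Y → (∀ E ∈ F, Y ≤ (E : ℝ)) →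
      ∑ E ∈ F, wt (k + 1) E * (E : ℝ) ^ (1 - nu k) ≤ C * Y ^ (-c)) (hC : 0 < C) (Y : ℝ)
    (hY : 1 ≤ Y) (f : ℕ → ℝ≥0∞) (v V : ℝ) (hv : 0 ≤ v) (hV : 0 ≤ V)
    (h1 : ∀ E : ℕ, 1 ≤ E → (E : ℝ) ≤ Y → f E ≤ ENNReal.ofReal v)
    (h2 : ∀ E : ℕ, Y ≤ (E : ℝ) → f E ≤ ENNReal.ofReal V) :
    ∑' E : ℕ, ENNReal.ofReal (muw k E) * f E ≤ ENNReal.ofReal (C * v + C * Y ^ (-c) * V) := by
  classical
  have ha : ∑' E : ℕ, (if (1 : ℝ) ≤ (E : ℝ) then ENNReal.ofReal (muw k E) else 0) ≤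
      ENNReal.ofReal (C * 1 ^ (-c)) := muh_tail hk h5 h 1 le_rfl
  rw [Real.one_rpow, mul_one] at ha
  have hb := muh_tail hk h5 h Y hY
  have h3 : ∀ E : ℕ, ENNReal.ofReal (muw k E) * f E ≤
      (if (1 : ℝ) ≤ (E : ℝ) then ENNReal.ofReal (muw k E) else 0) * ENNReal.ofReal v +
      (if Y ≤ (E : ℝ) then ENNReal.ofReal (muw k E) else 0) * ENNReal.ofReal V := by
    intro E
    rcases Nat.eq_zero_or_pos E with hE | hE
    · subst hE
      have h4 : muw k 0 = 0 := by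
        unfold muw
        have h5 := (muh_nu hk).2.1
        rw [Nat.cast_zero, Real.zero_rpow (by linarith), mul_zero]
      rw [h4, ENNReal.ofReal_zero, zero_mul]
      exact bot_le
    · have hE1 : (1 : ℝ) ≤ E := by exact_mod_cast hE
      rw [if_pos hE1]
      by_cases hEY : Y ≤ (E : ℝ)
      · rw [if_pos hEY]
        exact (mul_le_mul_right (h2 E hEY) _).trans le_add_self
      · exact (mul_le_mul_right (h1 E hE (not_le.1 hEY).le) _).trans le_self_add
  refine (ENNReal.tsum_le_tsum h3).trans ?_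
  rw [ENNReal.tsum_add, ENNReal.tsum_mul_right, ENNReal.tsum_mul_right,
    ENNReal.ofReal_add (by positivity) (by positivity), ENNReal.ofReal_mul hC.le,
    ENNReal.ofReal_mul (by positivity)]
  exact add_le_add (mul_le_mul_left ha _) (mul_le_mul_left hb _)

end Pool.Agent.H72.EQQ
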